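import Pool.Agent.N556.CQ.Stm

/-!
# Project CQ, NORM: affine normalisation
-/

set_option autoImplicit false

namespace Pool.Agent.N216.CQ

open Pool.Agent.N556.CQ MeasureTheory Set

noncomputable section

/-- the linear part -/
def TT (u v : P) (M : ℝ) : P →ₗ[ℝ] P :=
  Matrix.toLin (Module.Basis.finTwoProd ℝ) (Module.Basis.finTwoProd ℝ)
    !![2 / M * v.2, -(2 / M * v.1); -(2 / M * u.2), 2 / M * u.1]

lemma TT_ap (u v : P) (M : ℝ) (x : P) : TT u v M x = (2 / M * cr x v, 2 / M * cr u x) := by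
  unfold TT
  rw [Matrix.toLin_finTwoProd_apply]
  unfold cr
  refine Prod.ext ?_ ?_
  · simp only
    ring
  · simp only
    ring

lemma TT_det (u v : P) (M : ℝ) (hM : M ≠ 0) (h : cr u v = M) :
    LinearMap.det (TT u v M) = 4 / M := by
  unfold TT
  rw [LinearMap.det_toLin, Matrix.det_fin_two_of]
  have e : (2 / M * v.2) * (2 / M * u.1) - -(2 / M * v.1) * -(2 / M * u.2) =
      4 / M ^ 2 * cr u v := by
    unfold cr
    field_simp
    ring
  rw [e, h]
  field_simp

/-- the affine map -/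
def FF (u v : P) (M : ℝ) (w : P) : P →ᵃ[ℝ] P :=
  (TT u v M).toAffineMap + AffineMap.const ℝ P w

lemma FF_ap (u v : P) (M : ℝ) (w x : P) : FF u v M w x = TT u v M x + w := rfl

lemma FF_1 (u v : P) (M : ℝ) (w x : P) : (FF u v M w x).1 = 2 / M * cr x v + w.1 := by
  rw [FF_ap, TT_ap]; rfl

lemma FF_2 (u v : P) (M : ℝ) (w x : P) : (FF u v M w x).2 = 2 / M * cr u x + w.2 := by
  rw [FF_ap, TT_ap]; rfl

/-- the inverse map -/
def GG (u v w y : P) : P := ((y.1 - w.1) / 2) • u + ((y.2 - w.2) / 2) • v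

lemma FG (u v w : P) (M : ℝ) (hM : M ≠ 0) (h : cr u v = M) (y : P) :
    FF u v M w (GG u v w y) = y := by
  have h' : u.1 * v.2 - u.2 * v.1 = M := h
  refine Prod.ext ?_ ?_
  · rw [FF_1]
    unfold GG cr
    simp only [Prod.fst_add, Prod.snd_add, Prod.smul_fst, Prod.smul_snd, smul_eq_mul]
    field_simp
    linear_combination (y.1 - w.1) * h'
  · rw [FF_2]
    unfold GG cr
    simp only [Prod.fst_add, Prod.snd_add, Prod.smul_fst, Prod.smul_snd, smul_eq_mul]
    field_simp
    linear_combination (y.2 - w.2) * h'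

lemma GF (u v w : P) (M : ℝ) (hM : M ≠ 0) (h : cr u v = M) (x : P) :
    GG u v w (FF u v M w x) = x := by
  have h' : u.1 * v.2 - u.2 * v.1 = M := h
  unfold GG
  rw [FF_1, FF_2]
  refine Prod.ext ?_ ?_
  · simp only [Prod.fst_add, Prod.smul_fst, smul_eq_mul]
    unfold cr
    field_simp
    linear_combination (2 * x.1) * h'
  · simp only [Prod.snd_add, Prod.smul_snd, smul_eq_mul]
    unfold cr
    field_simp
    linear_combination (2 * x.2) * h'

lemma FF_cr (u v w : P) (M : ℝ) (hM : M ≠ 0) (h : cr u v = M) (A B C D : P) :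
    cr (FF u v M w A - FF u v M w C) (FF u v M w B - FF u v M w D) =
      4 / M * cr (A - C) (B - D) := by
  have h' : u.1 * v.2 - u.2 * v.1 = M := h
  have e : ∀ x y : P, cr x y = x.1 * y.2 - x.2 * y.1 := fun _ _ => rfl
  rw [e (FF u v M w A - FF u v M w C)]
  simp only [Prod.fst_sub, Prod.snd_sub, FF_1, FF_2]
  unfold cr
  simp only [Prod.fst_sub, Prod.snd_sub]
  field_simp
  linear_combination (4 * ((A.1 - C.1) * (B.2 - D.2) - (A.2 - C.2) * (B.1 - D.1))) * h'

lemma FF_vol (u v w : P) (M : ℝ) (hM : 0 < M) (h : cr u v = M) (X : Set P) :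
    volume (FF u v M w '' X) = ENNReal.ofReal (4 / M) * volume X := by
  have e1 : FF u v M w '' X = (fun x => x + w) '' (TT u v M '' X) := by
    rw [Set.image_image]
    rfl
  rw [e1, Set.image_add_right, measure_preimage_add_right,
    Measure.addHaar_image_linearMap volume (TT u v M) X, TT_det u v M hM.ne' h,
    abs_of_pos (by positivity)]

lemma FF_cont (u v w : P) (M : ℝ) : Continuous (FF u v M w) := by
  have e : (FF u v M w : P → P) = fun x => (2 / M * cr x v + w.1, 2 / M * cr u x + w.2) := by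
    funext x
    exact Prod.ext (FF_1 u v M w x) (FF_2 u v M w x)
  rw [e]
  unfold cr
  fun_prop

theorem norm : S_NORM := by
  intro K hK hc hv
  -- an interior point
  have hint : (interior K).Nonempty := by
    by_contra h
    rw [Set.not_nonempty_iff_eq_empty] at h
    have h1 : K ⊆ frontier K := by
      intro x hx
      rw [frontier, h, Set.sdiff_empty]
      exact subset_closure hx
    have h2 := measure_mono (μ := (volume : Measure P)) h1
    rw [hc.addHaar_frontier volume] at h2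
    exact absurd (le_antisymm h2 zero_le) hv.ne'
  obtain ⟨p, hp⟩ := hint
  obtain ⟨r, hr, hball⟩ := Metric.isOpen_iff.1 isOpen_interior p hp
  have hpK : p ∈ K := interior_subset hp
  have h1K : p + (r / 2, 0) ∈ K := by
    apply interior_subset
    apply hball
    rw [Metric.mem_ball, dist_eq_norm, add_sub_cancel_left, Prod.norm_def]
    simp only [norm_zero, Real.norm_eq_abs]
    rw [abs_of_pos (by positivity), max_eq_left (by positivity)]
    linarith
  have h2K : p + (0, r / 2) ∈ K := by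
    apply interior_subset
    apply hball
    rw [Metric.mem_ball, dist_eq_norm, add_sub_cancel_left, Prod.norm_def]
    simp only [norm_zero, Real.norm_eq_abs]
    rw [abs_of_pos (by positivity), max_eq_right (by positivity)]
    linarith
  -- the maximum
  have hcpt : IsCompact (K ×ˢ K ×ˢ K ×ˢ K) := hK.prod (hK.prod (hK.prod hK))
  have hcont : Continuous fun q : P × P × P × P => cr (q.1 - q.2.2.1) (q.2.1 - q.2.2.2) := by
    unfold cr
    fun_prop
  obtain ⟨⟨A, B, C, D⟩, hmem, hmax⟩ := hcpt.exists_isMaxOn ⟨(p, p, p, p), hpK, hpK, hpK, hpK⟩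
    hcont.continuousOn
  obtain ⟨hA, hB, hC, hD⟩ := hmem
  simp only at hA hB hC hD
  obtain ⟨M, hMdef⟩ : ∃ M, M = cr (A - C) (B - D) := ⟨_, rfl⟩
  have hmx : ∀ A' ∈ K, ∀ B' ∈ K, ∀ C' ∈ K, ∀ D' ∈ K, cr (A' - C') (B' - D') ≤ M := by
    intro A' hA' B' hB' C' hC' D' hD'
    rw [hMdef]
    exact hmax (show (A', B', C', D') ∈ K ×ˢ K ×ˢ K ×ˢ K from ⟨hA', hB', hC', hD'⟩)
  have hM : 0 < M := by
    have h1 := hmx _ h1K _ h2K _ hpK _ hpK
    rw [add_sub_cancel_left, add_sub_cancel_left] at h1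
    unfold cr at h1
    simp only at h1
    nlinarith
  obtain ⟨u, hu⟩ : ∃ u, u = A - C := ⟨_, rfl⟩
  obtain ⟨v, hv'⟩ : ∃ v, v = B - D := ⟨_, rfl⟩
  have huv : cr u v = M := by rw [hu, hv', hMdef]
  obtain ⟨w, hw⟩ : ∃ w : P, w = (1 - 2 / M * cr A v, 1 - 2 / M * cr u B) := ⟨_, rfl⟩
  obtain ⟨F, hF⟩ : ∃ F : P →ᵃ[ℝ] P, F = FF u v M w := ⟨_, rfl⟩
  have hcr : ∀ x y z, cr x (y - z) = cr x y - cr x z := by
    intro x y z
    unfold cr
    simp only [Prod.fst_sub, Prod.snd_sub]
    ring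
  have hcr' : ∀ x y z, cr (y - z) x = cr y x - cr z x := by
    intro x y z
    unfold cr
    simp only [Prod.fst_sub, Prod.snd_sub]
    ring
  have hself : ∀ x, cr x x = 0 := by
    intro x
    unfold cr
    ring
  -- the four points
  have A1 : (F A).1 = 1 := by rw [hF, FF_1, hw]; ring
  have B2 : (F B).2 = 1 := by rw [hF, FF_2, hw]; ring
  have C1 : (F C).1 = -1 := by
    have h1 : cr A v - cr C v = M := by rw [← hcr', ← hu, huv]
    rw [hF, FF_1, hw]
    have h2 : cr C v = cr A v - M := by linarith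
    rw [h2]
    field_simp
    ring
  have C2 : (F C).2 = (F A).2 := by
    have h1 : cr u A - cr u C = 0 := by rw [← hcr, ← hu, hself]
    rw [hF, FF_2, FF_2]
    have h2 : cr u C = cr u A := by linarith
    rw [h2]
  have D2 : (F D).2 = -1 := by
    have h1 : cr u B - cr u D = M := by rw [← hcr, ← hv', huv]
    rw [hF, FF_2, hw]
    have h2 : cr u D = cr u B - M := by linarith
    rw [h2]
    field_simp
    ring
  have D1 : (F D).1 = (F B).1 := by
    have h1 : cr B v - cr D v = 0 := by rw [← hcr', ← hv', hself]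
    rw [hF, FF_1, FF_1]
    have h2 : cr D v = cr B v := by linarith
    rw [h2]
  have hmx' : ∀ A' ∈ K, ∀ B' ∈ K, ∀ C' ∈ K, ∀ D' ∈ K, cr (F A' - F C') (F B' - F D') ≤ 4 := by
    intro A' hA' B' hB' C' hC' D' hD'
    rw [hF, FF_cr u v w M hM.ne' huv]
    have := hmx A' hA' B' hB' C' hC' D' hD'
    rw [div_mul_eq_mul_div, div_le_iff₀ hM]
    linarith
  have hvol : ∀ X : Set P, volume (F '' X) = ENNReal.ofReal (4 / M) * volume X := by
    intro X
    rw [hF]
    exact FF_vol u v w M hM huv X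
  refine ⟨F '' K, 4 / M, by positivity, ?_, ?_, ⟨?_, ?_, ?_⟩, hvol K, ?_⟩
  · rw [hF]
    exact hK.image (FF_cont u v w M)
  · exact hc.affine_image F
  · rintro _ ⟨x, hx, rfl⟩
    have k1 := hmx' x hx B hB C hC D hD
    have k2 := hmx' A hA B hB x hx D hD
    have k3 := hmx' A hA x hx C hC D hD
    have k4 := hmx' A hA B hB C hC x hx
    unfold cr at k1 k2 k3 k4
    simp only [Prod.fst_sub, Prod.snd_sub, A1, B2, C1, C2, D1, D2, sub_self, mul_zero, zero_mul,
      sub_zero] at k1 k2 k3 k4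
    refine ⟨abs_le.2 ⟨?_, ?_⟩, abs_le.2 ⟨?_, ?_⟩⟩ <;> linarith
  · refine ⟨(F A).2, (F B).1, ⟨A, hA, Prod.ext A1 rfl⟩, ⟨C, hC, Prod.ext C1 C2⟩,
      ⟨B, hB, Prod.ext rfl B2⟩, ⟨D, hD, Prod.ext D1 D2⟩⟩
  · rintro _ ⟨A', hA', rfl⟩ _ ⟨B', hB', rfl⟩ _ ⟨C', hC', rfl⟩ _ ⟨D', hD', rfl⟩
    exact hmx' A' hA' B' hB' C' hC' D' hD'
  · rintro s ⟨a, b, c, d, hsub, hle⟩
    have hFG : ∀ y, F (GG u v w y) = y := by
      intro y
      rw [hF]
      exact FG u v w M hM.ne' huv y
    have hinj : Function.Injective F := by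
      intro x y hxy
      rw [hF] at hxy
      rw [← GF u v w M hM.ne' huv x, ← GF u v w M hM.ne' huv y, hxy]
    have himg : F '' hull (GG u v w a) (GG u v w b) (GG u v w c) (GG u v w d) = hull a b c d := by
      unfold hull
      rw [AffineMap.image_convexHull]
      congr 1
      rw [Set.image_insert_eq, Set.image_insert_eq, Set.image_insert_eq, Set.image_singleton,
        hFG, hFG, hFG, hFG]
    refine ⟨GG u v w a, GG u v w b, GG u v w c, GG u v w d, ?_, ?_⟩
    · intro x hx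
      have h1 := hsub (Set.mem_image_of_mem F hx)
      rw [← himg] at h1
      obtain ⟨y, hy, hxy⟩ := h1
      rwa [hinj hxy] at hy
    · rw [← himg, hvol, ENNReal.ofReal_mul (by positivity)] at hle
      have h0 : ENNReal.ofReal (4 / M) ≠ 0 := by
        rw [Ne, ENNReal.ofReal_eq_zero, not_le]
        positivity
      exact (ENNReal.mul_le_mul_iff_right h0 ENNReal.ofReal_ne_top).1 hle

end

end Pool.Agent.N216.CQ
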